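import Pool.Agent.Run7.h878.LF.Six

/-!
# Three cycles, two of them 2-factors: graphs without an induced linear forest (MP_c95763_co)

Let `G` be a finite cubic graph without bridges, and let `F` be the union of a chain of
pieces. If the contracted graph `G / F` does not contain one of the linear forests `P9 + P1`,
`P5 + 2 P2`, `P4 + 2 P2 + P1`, `P4 + 4 P1`, `P3 + P2 + 3 P1` as an induced subgraph (for instance, if
there is no induced matching with four edges, or if every induced path with nine vertices is
dominating), then `G` is the union of three 2-factors; more precisely, there are six 2-factors such that
every edge is in exactly four of them, so that any three of them cover all edges.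

Here a chain is a sequence of sets of edges (pieces), and `F` is their union; every piece is a circuit
or ear with at most four new edges, or any set without bridge modulo the earlier pieces with at most
four new edges, or a doubly connected set. For the empty chain the condition is a condition on `G`
itself. The five linear forests contain every linear forest with at most eight vertices and at most
five components except `P2 + 2 P3`; so the theorem holds for the bridgeless cubic graphs without an
induced `L`, for every such linear forest `L`. The definitions of the condition are in
`Pool/Agent/Run7/h878/LF/Six.lean`.

Proof. Assume that there is no nowhere-zero 4-flow and no Petersen quotient, and contract disjoint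
connected sets as long as this remains true. By the starting library (`R140/PK`, `R890/FF`) the
result `H` has no circuits with at most four edges, no vertices with one or two neighbours, at least 18
vertices of odd degree, one component with edges, and an induced path with eight vertices. A
computer search, whose certificate is checked by the kernel (`Run7/h878/LF`), shows that `H` contains
each of the five linear forests as an induced subgraph. So `G` has six even subgraphs such that every
edge is in exactly four of them. 
-/

set_option autoImplicit false

open Finset

namespace Pool.Agent.Results.MP_c95763_co.InducedLinearForests

open Pool.Agent.Run7.h878.LF.Six (ForestsModuloPieces six factor three_cover)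

/-- every vertex has degree three, where a loop counts twice -/
def IsCubic {V E : Type} [DecidableEq V] [Fintype E] (s t : E → V) : Prop :=
  ∀ v, ∑ e, ((if s e = v then 1 else 0) + (if t e = v then 1 else 0)) = 3

/-- the set of edges `C` is a 2-factor: every vertex has degree two in it -/
def IsTwoFactor {V E : Type} [DecidableEq V] (s t : E → V) (C : Finset E) : Prop :=
  ∀ v, ∑ e ∈ C, ((if s e = v then 1 else 0) + (if t e = v then 1 else 0)) = 2

/-- Let `G` be a finite cubic graph such that no set of vertices is left by exactly one edge (no
bridges), which satisfies the condition above. Then `G` is the union of three 2-factors; more
precisely, there are six 2-factors such that each edge is in exactly four of them, so any three of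
them cover all edges. -/
theorem result (V E : Type) [Fintype V] [DecidableEq V] [Fintype E] [DecidableEq E] (s t : E → V)
    (hc : IsCubic s t)
    (hbridge : ∀ Z : Finset V, (univ.filter fun e => ¬ (s e ∈ Z ↔ t e ∈ Z)).card ≠ 1)
    (h : ForestsModuloPieces s t) :
    ∃ C : Fin 6 → Finset E, (∀ i, IsTwoFactor s t (C i)) ∧
      (∀ e, (univ.filter (fun i => e ∈ C i)).card = 4) ∧
      ∀ i j k, i ≠ j → i ≠ k → j ≠ k → C i ∪ C j ∪ C k = univ := by
  obtain ⟨C, hC, h4⟩ := six s t hbridge h
  refine ⟨C, fun i v => factor hC h4 v (hc v) i, h4, ?_⟩
  intro i j k hij hik hjk
  ext e
  simp only [mem_union, mem_univ, iff_true]
  rcases three_cover h4 hij hik hjk e with h | h | h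
  · exact Or.inl (Or.inl h)
  · exact Or.inl (Or.inr h)
  · exact Or.inr h

end Pool.Agent.Results.MP_c95763_co.InducedLinearForests
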